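import Mathlib
import Pool.Agent.X149.LatticeCurve

/-!
# MP_361b6b_co, question Q1 (negated form)

A spiral tiling in which the marked prototile occurs in exactly three aspects.  The prototile is the
unit square, marked by its bottom side.  In the standard square tiling every cell marks its left,
its bottom or its top side, in such a way that the marked sides are exactly the edges of the square
spiral through all the lattice points, which is one unbounded simple curve.
-/

namespace Pool.Agent.Results.MP_361b6b_co.ThreeAspects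

open Filter Topology Set

/-- The Euclidean plane. -/
abbrev Plane : Type := EuclideanSpace ℝ (Fin 2)

/-- `A` is a closed topological disk. -/
def IsClosedDisk (A : Set Plane) : Prop := Nonempty (A ≃ₜ Metric.closedBall (0 : Plane) 1)

/-- `A` is an arc: homeomorphic to `[0, 1]`. -/
def IsArc (A : Set Plane) : Prop := Nonempty (A ≃ₜ Set.Icc (0 : ℝ) 1)

/-- `C` is an unbounded simple curve: it is homeomorphic to an interval of the real line and lies in
no bounded set. -/
def IsUnboundedSimpleCurve (C : Set Plane) : Prop :=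
  (∃ J : Set ℝ, J.OrdConnected ∧ Nonempty (J ≃ₜ C)) ∧ ¬ Bornology.IsBounded C

/-- `M` is a marking of `T`: a finite nonempty set of arcs contained in `T`. -/
def IsMarking (T : Set Plane) (M : Set (Set Plane)) : Prop :=
  M.Finite ∧ M.Nonempty ∧ ∀ A ∈ M, IsArc A ∧ A ⊆ T

/-- The maps `φ i` are isometries of the plane and the sets `φ i '' T` form a tiling of the plane
(indexed by a countable set) in which every bounded set meets only finitely many tiles. -/
def IsMonohedralTiling {ι : Type} (T : Set Plane) (φ : ι → Plane → Plane) : Prop :=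
  Countable ι ∧ (∀ i, Isometry (φ i)) ∧ (⋃ i, φ i '' T) = univ ∧
    (∀ i j, i ≠ j → Disjoint (interior (φ i '' T)) (interior (φ j '' T))) ∧
    ∀ K : Set Plane, Bornology.IsBounded K → {i | (φ i '' T ∩ K).Nonempty}.Finite

/-- The union of all carried arcs is a union of finitely many unbounded simple curves. -/
def IsSpiral {ι : Type} (M : Set (Set Plane)) (φ : ι → Plane → Plane) : Prop :=
  ∃ (n : ℕ) (C : Fin n → Set Plane), (∀ k, IsUnboundedSimpleCurve (C k)) ∧
    (⋃ i, ⋃ A ∈ M, φ i '' A) = ⋃ k, C k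

/-- The marked tiles `i` and `j` are in the same aspect: a translation maps the tile `i` onto the
tile `j` and the arcs carried by `i` onto the arcs carried by `j`. -/
def SameAspect {ι : Type} (T : Set Plane) (M : Set (Set Plane)) (φ : ι → Plane → Plane)
    (i j : ι) : Prop :=
  ∃ v : Plane, (fun p => p + v) '' (φ i '' T) = φ j '' T ∧
    (fun A => (fun p => p + v) '' (φ i '' A)) '' M = (fun A => φ j '' A) '' M

/-- The number of aspects: the number of classes of `SameAspect`. -/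
noncomputable def numAspects {ι : Type} (T : Set Plane) (M : Set (Set Plane))
    (φ : ι → Plane → Plane) : ℕ∞ :=
  {S : Set ι | ∃ i, S = {j | SameAspect T M φ i j}}.encard

/-! ### The square spiral -/

open Pool.Agent.X149.LatticeCurve (Adj pt curveIci isClosedEmbedding_curveIci range_curveIci)

/-- The successor of a lattice point on the spiral. -/
def nxt (p : ℤ × ℤ) : ℤ × ℤ :=
  if p.2 ≤ 0 ∧ p.2 ≤ p.1 ∧ p.1 ≤ -p.2 then (p.1 + 1, p.2)
  else if 1 ≤ p.1 ∧ -p.1 + 1 ≤ p.2 ∧ p.2 < p.1 then (p.1, p.2 + 1)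
  else if 1 ≤ p.2 ∧ -p.2 < p.1 ∧ p.1 ≤ p.2 then (p.1 - 1, p.2)
  else (p.1, p.2 - 1)

/-- The position of a lattice point on the spiral. -/
def idx (p : ℤ × ℤ) : ℤ :=
  if p.2 ≤ 0 ∧ p.2 ≤ p.1 ∧ p.1 ≤ -p.2 then 4 * p.2 ^ 2 - 2 * p.2 + (p.1 - p.2)
  else if 1 ≤ p.1 ∧ -p.1 + 1 ≤ p.2 ∧ p.2 < p.1 then (2 * p.1 - 1) ^ 2 + (p.2 + p.1 - 1)
  else if 1 ≤ p.2 ∧ -p.2 < p.1 ∧ p.1 ≤ p.2 then 4 * p.2 ^ 2 - 2 * p.2 + (p.2 - p.1)
  else 4 * p.1 ^ 2 + (-p.1 - p.2)

theorem idx_nonneg (p : ℤ × ℤ) : 0 ≤ idx p := by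
  obtain ⟨x, y⟩ := p
  simp only [idx]
  split_ifs with h1 h2 h3
  · nlinarith
  · nlinarith
  · nlinarith
  · have hx : x ≤ -1 := by omega
    have hy : y ≤ -x := by omega
    nlinarith

theorem idx_nxt (p : ℤ × ℤ) : idx (nxt p) = idx p + 1 := by
  obtain ⟨x, y⟩ := p
  by_cases h1 : y ≤ 0 ∧ y ≤ x ∧ x ≤ -y
  · have e1 : nxt (x, y) = (x + 1, y) := by simp only [nxt, if_pos h1]
    have e2 : idx (x, y) = 4 * y ^ 2 - 2 * y + (x - y) := by simp only [idx, if_pos h1]
    rw [e1, e2]
    by_cases h2 : x + 1 ≤ -y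
    · have : idx (x + 1, y) = 4 * y ^ 2 - 2 * y + (x + 1 - y) := by
        simp only [idx]
        rw [if_pos (by omega)]
      rw [this]
      ring
    · have hx : x = -y := by omega
      have : idx (x + 1, y) = (2 * (x + 1) - 1) ^ 2 + (y + (x + 1) - 1) := by
        simp only [idx]
        rw [if_neg (by omega), if_pos (by omega)]
      rw [this, hx]
      ring
  · by_cases h2 : 1 ≤ x ∧ -x + 1 ≤ y ∧ y < x
    · have e1 : nxt (x, y) = (x, y + 1) := by simp only [nxt, if_neg h1, if_pos h2]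
      have e2 : idx (x, y) = (2 * x - 1) ^ 2 + (y + x - 1) := by
        simp only [idx, if_neg h1, if_pos h2]
      rw [e1, e2]
      by_cases h3 : y + 1 < x
      · have : idx (x, y + 1) = (2 * x - 1) ^ 2 + (y + 1 + x - 1) := by
          simp only [idx]
          rw [if_neg (by omega), if_pos (by omega)]
        rw [this]
        ring
      · have hx : x = y + 1 := by omega
        have : idx (x, y + 1) = 4 * (y + 1) ^ 2 - 2 * (y + 1) + (y + 1 - x) := by
          simp only [idx]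
          rw [if_neg (by omega), if_neg (by omega), if_pos (by omega)]
        rw [this, hx]
        ring
    · by_cases h3 : 1 ≤ y ∧ -y < x ∧ x ≤ y
      · have e1 : nxt (x, y) = (x - 1, y) := by simp only [nxt, if_neg h1, if_neg h2, if_pos h3]
        have e2 : idx (x, y) = 4 * y ^ 2 - 2 * y + (y - x) := by
          simp only [idx, if_neg h1, if_neg h2, if_pos h3]
        rw [e1, e2]
        by_cases h4 : -y < x - 1
        · have : idx (x - 1, y) = 4 * y ^ 2 - 2 * y + (y - (x - 1)) := by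
            simp only [idx]
            rw [if_neg (by omega), if_neg (by omega), if_pos (by omega)]
          rw [this]
          ring
        · have hx : x = -y + 1 := by omega
          have : idx (x - 1, y) = 4 * (x - 1) ^ 2 + (-(x - 1) - y) := by
            simp only [idx]
            rw [if_neg (by omega), if_neg (by omega), if_neg (by omega)]
          rw [this, hx]
          ring
      · have e1 : nxt (x, y) = (x, y - 1) := by simp only [nxt, if_neg h1, if_neg h2, if_neg h3]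
        have e2 : idx (x, y) = 4 * x ^ 2 + (-x - y) := by
          simp only [idx, if_neg h1, if_neg h2, if_neg h3]
        rw [e1, e2]
        have hx : x ≤ -1 := by omega
        have hy : x < y ∧ y ≤ -x := by omega
        by_cases h4 : x < y - 1
        · have : idx (x, y - 1) = 4 * x ^ 2 + (-x - (y - 1)) := by
            simp only [idx]
            rw [if_neg (by omega), if_neg (by omega), if_neg (by omega)]
          rw [this]
          ring
        · have hyx : y = x + 1 := by omega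
          have : idx (x, y - 1) = 4 * (y - 1) ^ 2 - 2 * (y - 1) + (x - (y - 1)) := by
            simp only [idx]
            rw [if_pos (by omega)]
          rw [this, hyx]
          ring

theorem exists_prev (p : ℤ × ℤ) (hp : p ≠ (0, 0)) : ∃ q, nxt q = p := by
  obtain ⟨x, y⟩ := p
  have hp' : ¬ (x = 0 ∧ y = 0) := fun h => hp (Prod.ext h.1 h.2)
  by_cases h1 : y ≤ 0 ∧ y ≤ x - 1 ∧ x - 1 ≤ -y
  · refine ⟨(x - 1, y), ?_⟩
    simp only [nxt]
    rw [if_pos h1, sub_add_cancel]
  · by_cases h2 : 1 ≤ x ∧ -x + 1 ≤ y - 1 ∧ y - 1 < x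
    · refine ⟨(x, y - 1), ?_⟩
      simp only [nxt]
      rw [if_neg (by omega), if_pos h2, sub_add_cancel]
    · by_cases h3 : 1 ≤ y ∧ -y < x + 1 ∧ x + 1 ≤ y
      · refine ⟨(x + 1, y), ?_⟩
        simp only [nxt]
        rw [if_neg (by omega), if_neg (by omega), if_pos h3, add_sub_cancel_right]
      · refine ⟨(x, y + 1), ?_⟩
        simp only [nxt]
        rw [if_neg (by omega), if_neg (by omega), if_neg (by omega), add_sub_cancel_right]

/-- The points of the spiral. -/
def V (n : ℕ) : ℤ × ℤ := nxt^[n] (0, 0)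

theorem V_succ (n : ℕ) : V (n + 1) = nxt (V n) := Function.iterate_succ_apply' _ _ _

theorem idx_V (n : ℕ) : idx (V n) = n := by
  induction n with
  | zero => simp [V, idx]
  | succ n ih =>
    rw [V_succ, idx_nxt, ih]
    push_cast
    ring

theorem V_injective : Function.Injective V := by
  intro m n h
  have h1 := idx_V m
  rw [h, idx_V n] at h1
  exact_mod_cast h1.symm

theorem V_of_idx (n : ℕ) : ∀ p : ℤ × ℤ, idx p = n → V n = p := by
  induction n with
  | zero =>
    intro p hp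
    by_cases h0 : p = (0, 0)
    · rw [h0]
      rfl
    · obtain ⟨q, rfl⟩ := exists_prev p h0
      rw [idx_nxt] at hp
      have := idx_nonneg q
      push_cast at hp
      omega
  | succ n ih =>
    intro p hp
    have h0 : p ≠ (0, 0) := by
      rintro rfl
      have : idx (0, 0) = 0 := by simp [idx]
      rw [this] at hp
      push_cast at hp
      omega
    obtain ⟨q, rfl⟩ := exists_prev p h0
    rw [idx_nxt] at hp
    push_cast at hp
    rw [V_succ, ih q (by omega)]

theorem V_surjective : Function.Surjective V := by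
  intro p
  obtain ⟨n, hn⟩ := Int.eq_ofNat_of_zero_le (idx_nonneg p)
  exact ⟨n, V_of_idx n p hn⟩

theorem nxt_adj (p : ℤ × ℤ) : Adj p (nxt p) := by
  unfold nxt Adj
  split_ifs <;> simp

theorem V_adj (n : ℕ) : Adj (V n) (V (n + 1)) := by
  rw [V_succ]
  exact nxt_adj _

/-! ### The tiling -/

/-- The unit square. -/
def sq : Set Plane := {p | (0 ≤ p 0 ∧ p 0 ≤ 1) ∧ (0 ≤ p 1 ∧ p 1 ≤ 1)}

/-- Its bottom side. -/
def bot : Set Plane := {p | (0 ≤ p 0 ∧ p 0 ≤ 1) ∧ p 1 = 0}

/-- Which side the cell marks: `0` bottom, `1` top, `2` left. -/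
def side (c : ℤ × ℤ) : Fin 3 :=
  if (1 ≤ c.1 ∧ -c.1 + 1 ≤ c.2 ∧ c.2 < c.1) ∨ (c.1 ≤ -1 ∧ c.1 ≤ c.2 ∧ c.2 ≤ -c.1 - 1) then 2
  else if 1 ≤ c.2 then (if -c.2 ≤ c.1 ∧ c.1 ≤ c.2 - 1 then 0 else 1)
  else if (c.2 + 1 ≤ 0 ∧ c.2 + 1 ≤ c.1 ∧ c.1 ≤ -c.2 - 1) then 1 else 0

/-- The isometry carrying the unit square to the cell with lower left corner `c` and the bottom side
to the marked side. -/
noncomputable def phi (c : ℤ × ℤ) (p : Plane) : Plane :=
  if side c = 0 then !₂[(c.1 : ℝ) + p 0, (c.2 : ℝ) + p 1]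
  else if side c = 1 then !₂[(c.1 : ℝ) + p 0, (c.2 : ℝ) + 1 - p 1]
  else !₂[(c.1 : ℝ) + p 1, (c.2 : ℝ) + p 0]

/-- The cell with lower left corner `c`. -/
def cell (c : ℤ × ℤ) : Set Plane :=
  {q | ((c.1 : ℝ) ≤ q 0 ∧ q 0 ≤ c.1 + 1) ∧ ((c.2 : ℝ) ≤ q 1 ∧ q 1 ≤ c.2 + 1)}

/-- The marked side of the cell `c`. -/
def mside (c : ℤ × ℤ) : Set Plane :=
  if side c = 0 then {q | ((c.1 : ℝ) ≤ q 0 ∧ q 0 ≤ c.1 + 1) ∧ q 1 = c.2}
  else if side c = 1 then {q | ((c.1 : ℝ) ≤ q 0 ∧ q 0 ≤ c.1 + 1) ∧ q 1 = c.2 + 1}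
  else {q | ((c.2 : ℝ) ≤ q 1 ∧ q 1 ≤ c.2 + 1) ∧ q 0 = c.1}

theorem vec_eq (a b : ℝ) (q : Plane) : !₂[a, b] = q ↔ a = q 0 ∧ b = q 1 := by
  constructor
  · rintro rfl
    exact ⟨rfl, rfl⟩
  · rintro ⟨rfl, rfl⟩
    ext i
    fin_cases i <;> rfl

@[simp] theorem vec_zero (a b : ℝ) : (!₂[a, b] : Plane) 0 = a := rfl

@[simp] theorem vec_one (a b : ℝ) : (!₂[a, b] : Plane) 1 = b := rfl

theorem phi_sq (c : ℤ × ℤ) : phi c '' sq = cell c := by
  ext q
  rw [mem_image]
  constructor
  · rintro ⟨p, ⟨⟨h1, h2⟩, h3, h4⟩, rfl⟩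
    unfold phi cell
    split_ifs
    · refine ⟨⟨?_, ?_⟩, ?_, ?_⟩ <;> simp only [Matrix.cons_val_zero, Matrix.cons_val_one, Matrix.cons_val_fin_one] <;> linarith
    · refine ⟨⟨?_, ?_⟩, ?_, ?_⟩ <;> simp only [Matrix.cons_val_zero, Matrix.cons_val_one, Matrix.cons_val_fin_one] <;> linarith
    · refine ⟨⟨?_, ?_⟩, ?_, ?_⟩ <;> simp only [Matrix.cons_val_zero, Matrix.cons_val_one, Matrix.cons_val_fin_one] <;> linarith
  · rintro ⟨⟨h1, h2⟩, h3, h4⟩
    unfold phi
    split_ifs
    · refine ⟨!₂[q 0 - c.1, q 1 - c.2], ⟨⟨?_, ?_⟩, ?_, ?_⟩, ?_⟩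
      · simp only [Matrix.cons_val_zero, Matrix.cons_val_one, Matrix.cons_val_fin_one]; linarith
      · simp only [Matrix.cons_val_zero, Matrix.cons_val_one, Matrix.cons_val_fin_one]; linarith
      · simp only [Matrix.cons_val_zero, Matrix.cons_val_one, Matrix.cons_val_fin_one]; linarith
      · simp only [Matrix.cons_val_zero, Matrix.cons_val_one, Matrix.cons_val_fin_one]; linarith
      · rw [vec_eq]
        simp
    · refine ⟨!₂[q 0 - c.1, c.2 + 1 - q 1], ⟨⟨?_, ?_⟩, ?_, ?_⟩, ?_⟩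
      · simp only [Matrix.cons_val_zero, Matrix.cons_val_one, Matrix.cons_val_fin_one]; linarith
      · simp only [Matrix.cons_val_zero, Matrix.cons_val_one, Matrix.cons_val_fin_one]; linarith
      · simp only [Matrix.cons_val_zero, Matrix.cons_val_one, Matrix.cons_val_fin_one]; linarith
      · simp only [Matrix.cons_val_zero, Matrix.cons_val_one, Matrix.cons_val_fin_one]; linarith
      · rw [vec_eq]
        simp
    · refine ⟨!₂[q 1 - c.2, q 0 - c.1], ⟨⟨?_, ?_⟩, ?_, ?_⟩, ?_⟩
      · simp only [Matrix.cons_val_zero, Matrix.cons_val_one, Matrix.cons_val_fin_one]; linarith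
      · simp only [Matrix.cons_val_zero, Matrix.cons_val_one, Matrix.cons_val_fin_one]; linarith
      · simp only [Matrix.cons_val_zero, Matrix.cons_val_one, Matrix.cons_val_fin_one]; linarith
      · simp only [Matrix.cons_val_zero, Matrix.cons_val_one, Matrix.cons_val_fin_one]; linarith
      · rw [vec_eq]
        simp

theorem phi_bot (c : ℤ × ℤ) : phi c '' bot = mside c := by
  ext q
  rw [mem_image]
  constructor
  · rintro ⟨p, ⟨⟨h1, h2⟩, h3⟩, rfl⟩
    unfold phi mside
    split_ifs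
    · refine ⟨⟨?_, ?_⟩, ?_⟩ <;> simp only [Matrix.cons_val_zero, Matrix.cons_val_one, Matrix.cons_val_fin_one] <;> linarith
    · refine ⟨⟨?_, ?_⟩, ?_⟩ <;> simp only [Matrix.cons_val_zero, Matrix.cons_val_one, Matrix.cons_val_fin_one] <;> linarith
    · refine ⟨⟨?_, ?_⟩, ?_⟩ <;> simp only [Matrix.cons_val_zero, Matrix.cons_val_one, Matrix.cons_val_fin_one] <;> linarith
  · unfold phi mside
    split_ifs
    · rintro ⟨⟨h1, h2⟩, h3⟩
      refine ⟨!₂[q 0 - c.1, 0], ⟨⟨?_, ?_⟩, rfl⟩, ?_⟩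
      · simp only [Matrix.cons_val_zero, Matrix.cons_val_one, Matrix.cons_val_fin_one]; linarith
      · simp only [Matrix.cons_val_zero, Matrix.cons_val_one, Matrix.cons_val_fin_one]; linarith
      · rw [vec_eq]
        simp [h3]
    · rintro ⟨⟨h1, h2⟩, h3⟩
      refine ⟨!₂[q 0 - c.1, 0], ⟨⟨?_, ?_⟩, rfl⟩, ?_⟩
      · simp only [Matrix.cons_val_zero, Matrix.cons_val_one, Matrix.cons_val_fin_one]; linarith
      · simp only [Matrix.cons_val_zero, Matrix.cons_val_one, Matrix.cons_val_fin_one]; linarith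
      · rw [vec_eq]
        simp [h3]
    · rintro ⟨⟨h1, h2⟩, h3⟩
      refine ⟨!₂[q 1 - c.2, 0], ⟨⟨?_, ?_⟩, rfl⟩, ?_⟩
      · simp only [Matrix.cons_val_zero, Matrix.cons_val_one, Matrix.cons_val_fin_one]; linarith
      · simp only [Matrix.cons_val_zero, Matrix.cons_val_one, Matrix.cons_val_fin_one]; linarith
      · rw [vec_eq]
        simp [h3]

theorem isometry_phi (c : ℤ × ℤ) : Isometry (phi c) := by
  refine Isometry.of_dist_eq fun p q => ?_
  rw [EuclideanSpace.dist_eq, EuclideanSpace.dist_eq]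
  congr 1
  simp only [Fin.sum_univ_two, Real.dist_eq, sq_abs]
  unfold phi
  split_ifs
  · simp only [Matrix.cons_val_zero, Matrix.cons_val_one, Matrix.cons_val_fin_one]
    ring
  · simp only [Matrix.cons_val_zero, Matrix.cons_val_one, Matrix.cons_val_fin_one]
    ring
  · simp only [Matrix.cons_val_zero, Matrix.cons_val_one, Matrix.cons_val_fin_one]
    ring

/-! ### The union of the marked sides -/

/-- The edge of the spiral starting at `p`. -/
def E (p : ℤ × ℤ) : Set Plane := (pt p (nxt p)) '' Icc 0 1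

theorem mem_E (p : ℤ × ℤ) (q : Plane) : q ∈ E p ↔
    (if p.2 ≤ 0 ∧ p.2 ≤ p.1 ∧ p.1 ≤ -p.2 then ((p.1 : ℝ) ≤ q 0 ∧ q 0 ≤ p.1 + 1) ∧ q 1 = p.2
    else if 1 ≤ p.1 ∧ -p.1 + 1 ≤ p.2 ∧ p.2 < p.1 then
      ((p.2 : ℝ) ≤ q 1 ∧ q 1 ≤ p.2 + 1) ∧ q 0 = p.1
    else if 1 ≤ p.2 ∧ -p.2 < p.1 ∧ p.1 ≤ p.2 then
      ((p.1 : ℝ) - 1 ≤ q 0 ∧ q 0 ≤ p.1) ∧ q 1 = p.2
    else ((p.2 : ℝ) - 1 ≤ q 1 ∧ q 1 ≤ p.2) ∧ q 0 = p.1) := by
  unfold E
  rw [mem_image]
  unfold nxt
  split_ifs
  · constructor
    · rintro ⟨θ, ⟨h0, h1⟩, rfl⟩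
      simp only [Pool.Agent.X149.LatticeCurve.pt_zero, Pool.Agent.X149.LatticeCurve.pt_one]
      push_cast
      refine ⟨⟨?_, ?_⟩, ?_⟩ <;> ring_nf <;> linarith
    · rintro ⟨⟨h0, h1⟩, h2⟩
      refine ⟨q 0 - p.1, ⟨by linarith, by linarith⟩, ?_⟩
      rw [pt, vec_eq]
      push_cast
      constructor
      · ring
      · rw [h2]; ring
  · constructor
    · rintro ⟨θ, ⟨h0, h1⟩, rfl⟩
      simp only [Pool.Agent.X149.LatticeCurve.pt_zero, Pool.Agent.X149.LatticeCurve.pt_one]
      push_cast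
      refine ⟨⟨?_, ?_⟩, ?_⟩ <;> ring_nf <;> linarith
    · rintro ⟨⟨h0, h1⟩, h2⟩
      refine ⟨q 1 - p.2, ⟨by linarith, by linarith⟩, ?_⟩
      rw [pt, vec_eq]
      push_cast
      constructor
      · rw [h2]; ring
      · ring
  · constructor
    · rintro ⟨θ, ⟨h0, h1⟩, rfl⟩
      simp only [Pool.Agent.X149.LatticeCurve.pt_zero, Pool.Agent.X149.LatticeCurve.pt_one]
      push_cast
      refine ⟨⟨?_, ?_⟩, ?_⟩ <;> ring_nf <;> linarith
    · rintro ⟨⟨h0, h1⟩, h2⟩
      refine ⟨p.1 - q 0, ⟨by linarith, by linarith⟩, ?_⟩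
      rw [pt, vec_eq]
      push_cast
      constructor
      · ring
      · rw [h2]; ring
  · constructor
    · rintro ⟨θ, ⟨h0, h1⟩, rfl⟩
      simp only [Pool.Agent.X149.LatticeCurve.pt_zero, Pool.Agent.X149.LatticeCurve.pt_one]
      push_cast
      refine ⟨⟨?_, ?_⟩, ?_⟩ <;> ring_nf <;> linarith
    · rintro ⟨⟨h0, h1⟩, h2⟩
      refine ⟨p.2 - q 1, ⟨by linarith, by linarith⟩, ?_⟩
      rw [pt, vec_eq]
      push_cast
      constructor
      · rw [h2]; ring
      · ring

/-- Every marked side is an edge of the spiral. -/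
theorem mside_sub (c : ℤ × ℤ) : ∃ p, mside c ⊆ E p := by
  obtain ⟨i, j⟩ := c
  by_cases h1 : 1 ≤ i ∧ -i + 1 ≤ j ∧ j < i
  · refine ⟨(i, j), fun q hq => ?_⟩
    have hs : side (i, j) = 2 := by simp only [side]; rw [if_pos (Or.inl h1)]
    rw [mem_E]
    simp only
    rw [if_neg (by omega), if_pos h1]
    simpa [mside, hs] using hq
  · by_cases h2 : i ≤ -1 ∧ i ≤ j ∧ j ≤ -i - 1
    · refine ⟨(i, j + 1), fun q hq => ?_⟩
      have hs : side (i, j) = 2 := by simp only [side]; rw [if_pos (Or.inr h2)]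
      rw [mem_E]
      simp only
      rw [if_neg (by omega), if_neg (by omega), if_neg (by omega)]
      push_cast
      rw [add_sub_cancel_right]
      simpa [mside, hs] using hq
    · have hn : ¬ ((1 ≤ i ∧ -i + 1 ≤ j ∧ j < i) ∨ (i ≤ -1 ∧ i ≤ j ∧ j ≤ -i - 1)) := by
        rintro (h | h)
        · exact h1 h
        · exact h2 h
      by_cases h3 : 1 ≤ j
      · by_cases h4 : -j ≤ i ∧ i ≤ j - 1
        · refine ⟨(i + 1, j), fun q hq => ?_⟩
          have hs : side (i, j) = 0 := by simp only [side]; rw [if_neg hn, if_pos h3, if_pos h4]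
          rw [mem_E]
          simp only
          rw [if_neg (by omega), if_neg (by omega), if_pos (by omega)]
          push_cast
          rw [add_sub_cancel_right]
          simpa [mside, hs] using hq
        · refine ⟨(i + 1, j + 1), fun q hq => ?_⟩
          have hs : side (i, j) = 1 := by simp only [side]; rw [if_neg hn, if_pos h3, if_neg h4]
          rw [mem_E]
          simp only
          rw [if_neg (by omega), if_neg (by omega), if_pos (by omega)]
          push_cast
          rw [add_sub_cancel_right]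
          simpa [mside, hs] using hq
      · by_cases h4 : j + 1 ≤ 0 ∧ j + 1 ≤ i ∧ i ≤ -j - 1
        · refine ⟨(i, j + 1), fun q hq => ?_⟩
          have hs : side (i, j) = 1 := by simp only [side]; rw [if_neg hn, if_neg h3, if_pos h4]
          rw [mem_E]
          simp only
          rw [if_pos (by omega)]
          push_cast
          simpa [mside, hs] using hq
        · refine ⟨(i, j), fun q hq => ?_⟩
          have hs : side (i, j) = 0 := by simp only [side]; rw [if_neg hn, if_neg h3, if_neg h4]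
          rw [mem_E]
          simp only
          rw [if_pos (by omega)]
          simpa [mside, hs] using hq

/-- Every edge of the spiral is a marked side. -/
theorem E_sub (p : ℤ × ℤ) : ∃ c, E p ⊆ mside c := by
  obtain ⟨x, y⟩ := p
  by_cases h1 : y ≤ 0 ∧ y ≤ x ∧ x ≤ -y
  · refine ⟨(x, y - 1), fun q hq => ?_⟩
    rw [mem_E] at hq
    simp only at hq
    rw [if_pos h1] at hq
    have hs : side (x, y - 1) = 1 := by
      simp only [side]
      rw [if_neg (by omega), if_neg (by omega), if_pos (by omega)]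
    simpa [mside, hs] using hq
  · by_cases h2 : 1 ≤ x ∧ -x + 1 ≤ y ∧ y < x
    · refine ⟨(x, y), fun q hq => ?_⟩
      rw [mem_E] at hq
      simp only at hq
      rw [if_neg h1, if_pos h2] at hq
      have hs : side (x, y) = 2 := by
        simp only [side]
        rw [if_pos (Or.inl h2)]
      simpa [mside, hs] using hq
    · by_cases h3 : 1 ≤ y ∧ -y < x ∧ x ≤ y
      · refine ⟨(x - 1, y), fun q hq => ?_⟩
        rw [mem_E] at hq
        simp only at hq
        rw [if_neg h1, if_neg h2, if_pos h3] at hq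
        have hs : side (x - 1, y) = 0 := by
          simp only [side]
          rw [if_neg (by omega), if_pos (by omega), if_pos (by omega)]
        simpa [mside, hs] using hq
      · refine ⟨(x, y - 1), fun q hq => ?_⟩
        rw [mem_E] at hq
        simp only at hq
        rw [if_neg h1, if_neg h2, if_neg h3] at hq
        have hs : side (x, y - 1) = 2 := by
          simp only [side]
          rw [if_pos (by omega)]
        simpa [mside, hs] using hq

theorem union_eq : (⋃ c, mside c) = Set.range (curveIci V) := by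
  rw [range_curveIci V_adj]
  have h : ∀ n, (pt (V n) (V (n + 1))) '' Icc 0 1 = E (V n) := by
    intro n
    rw [V_succ, E]
  ext q
  simp only [h, mem_iUnion]
  constructor
  · rintro ⟨c, hc⟩
    obtain ⟨p, hp⟩ := mside_sub c
    obtain ⟨n, rfl⟩ := V_surjective p
    exact ⟨n, hp hc⟩
  · rintro ⟨n, hn⟩
    obtain ⟨c, hc⟩ := E_sub (V n)
    exact ⟨c, hc hn⟩

theorem not_bounded_range : ¬ Bornology.IsBounded (Set.range (curveIci V)) := by
  intro h
  rw [isBounded_iff_forall_norm_le] at h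
  obtain ⟨R, hR⟩ := h
  obtain ⟨m, hm⟩ := exists_nat_gt R
  obtain ⟨n, hn⟩ := V_surjective ((m : ℤ), 0)
  have h1 := hR (curveIci V ⟨n, mem_Ici.mpr (Nat.cast_nonneg n)⟩) ⟨_, rfl⟩
  have h2 : curveIci V ⟨n, mem_Ici.mpr (Nat.cast_nonneg n)⟩ 0 = m := by
    change Pool.Agent.X149.LatticeCurve.curve V (n : ℝ) 0 = m
    rw [Pool.Agent.X149.LatticeCurve.curve, Pool.Agent.X149.LatticeCurve.pt_zero,
      Nat.floor_natCast, hn]
    simp
  have h3 := PiLp.norm_apply_le (curveIci V ⟨n, mem_Ici.mpr (Nat.cast_nonneg n)⟩) 0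
  rw [h2, Real.norm_of_nonneg (Nat.cast_nonneg m)] at h3
  linarith

/-! ### Topology of the square and its side -/

theorem convex_sq : Convex ℝ sq := by
  intro p hp q hq a b ha hb hab
  obtain ⟨⟨h1, h2⟩, h3, h4⟩ := hp
  obtain ⟨⟨h5, h6⟩, h7, h8⟩ := hq
  refine ⟨⟨?_, ?_⟩, ?_, ?_⟩ <;> simp only [PiLp.add_apply, PiLp.smul_apply, smul_eq_mul] <;>
    nlinarith

theorem isClosed_sq : IsClosed sq := by
  have h0 : Continuous fun p : Plane => p 0 := by fun_prop
  have h1 : Continuous fun p : Plane => p 1 := by fun_prop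
  exact ((isClosed_le continuous_const h0).inter (isClosed_le h0 continuous_const)).inter
    ((isClosed_le continuous_const h1).inter (isClosed_le h1 continuous_const))

theorem bounded_sq : Bornology.IsBounded sq := by
  rw [isBounded_iff_forall_norm_le]
  refine ⟨2, fun p hp => ?_⟩
  obtain ⟨⟨h1, h2⟩, h3, h4⟩ := hp
  have : ‖p‖ ^ 2 ≤ 2 ^ 2 := by
    rw [EuclideanSpace.norm_sq_eq, Fin.sum_univ_two, Real.norm_eq_abs, Real.norm_eq_abs, sq_abs,
      sq_abs]
    nlinarith
  exact le_of_sq_le_sq this (by norm_num)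

theorem interior_sq : (interior sq).Nonempty := by
  have h0 : Continuous fun p : Plane => p 0 := by fun_prop
  have h1 : Continuous fun p : Plane => p 1 := by fun_prop
  have hopen : IsOpen {p : Plane | (0 < p 0 ∧ p 0 < 1) ∧ (0 < p 1 ∧ p 1 < 1)} :=
    ((isOpen_lt continuous_const h0).inter (isOpen_lt h0 continuous_const)).inter
      ((isOpen_lt continuous_const h1).inter (isOpen_lt h1 continuous_const))
  refine ⟨!₂[1 / 2, 1 / 2], interior_maximal ?_ hopen ?_⟩
  · rintro p ⟨⟨h1, h2⟩, h3, h4⟩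
    exact ⟨⟨h1.le, h2.le⟩, h3.le, h4.le⟩
  · refine ⟨⟨?_, ?_⟩, ?_, ?_⟩ <;>
      simp only [Matrix.cons_val_zero, Matrix.cons_val_one, Matrix.cons_val_fin_one] <;> norm_num

theorem isClosedDisk_sq : IsClosedDisk sq := by
  obtain ⟨e, -, he, -⟩ := exists_homeomorph_image_eq (E := Plane) convex_sq interior_sq
    (NormedSpace.isVonNBounded_of_isBounded ℝ bounded_sq)
    (convex_closedBall (0 : Plane) 1)
    (by
      rw [interior_closedBall _ one_ne_zero]
      exact ⟨0, Metric.mem_ball_self one_pos⟩)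
    (NormedSpace.isVonNBounded_of_isBounded ℝ Metric.isBounded_closedBall)
  rw [isClosed_sq.closure_eq, Metric.isClosed_closedBall.closure_eq] at he
  exact ⟨(e.image sq).trans (Homeomorph.setCongr he)⟩

theorem isArc_bot : IsArc bot := by
  refine ⟨{
    toFun := fun p => ⟨(p : Plane) 0, p.2.1⟩
    invFun := fun t => ⟨!₂[(t : ℝ), 0], ⟨t.2, rfl⟩⟩
    left_inv := ?_
    right_inv := ?_
    continuous_toFun := ?_
    continuous_invFun := ?_ }⟩
  · intro p
    apply Subtype.ext
    change !₂[(p : Plane) 0, 0] = (p : Plane)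
    rw [vec_eq]
    exact ⟨rfl, p.2.2.symm⟩
  · intro t
    rfl
  · have h0 : Continuous fun p : bot => (p : Plane) 0 := by fun_prop
    exact h0.subtype_mk _
  · refine Continuous.subtype_mk ?_ _
    refine (PiLp.continuous_toLp 2 _).comp ?_
    refine continuous_pi fun i => ?_
    fin_cases i
    · exact continuous_subtype_val
    · exact continuous_const

/-! ### The tiling -/

theorem interior_hyperplane (i : Fin 2) (a : ℝ) : interior {p : Plane | p i = a} = ∅ := by
  by_contra hne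
  obtain ⟨p, hp⟩ := nonempty_iff_ne_empty.mpr hne
  rw [mem_interior_iff_mem_nhds, Metric.mem_nhds_iff] at hp
  obtain ⟨ε, hε, hball⟩ := hp
  have h1 : p ∈ Metric.ball p ε := Metric.mem_ball_self hε
  have h2 : p + EuclideanSpace.single i (ε / 2) ∈ Metric.ball p ε := by
    rw [Metric.mem_ball, dist_eq_norm, add_sub_cancel_left, PiLp.norm_single, Real.norm_eq_abs,
      abs_of_pos (by linarith)]
    linarith
  have h3 : p i = a := hball h1
  have h4 : (p + EuclideanSpace.single i (ε / 2)) i = a := hball h2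
  rw [PiLp.add_apply, PiLp.single_apply, if_pos rfl, h3] at h4
  linarith

theorem disjoint_cells {c d : ℤ × ℤ} (h : c ≠ d) :
    Disjoint (interior (cell c)) (interior (cell d)) := by
  rw [disjoint_iff_inter_eq_empty, ← interior_inter]
  obtain ⟨c1, c2⟩ := c
  obtain ⟨d1, d2⟩ := d
  have key : ∃ (i : Fin 2) (a : ℝ), cell (c1, c2) ∩ cell (d1, d2) ⊆ {p : Plane | p i = a} := by
    have h' : c1 < d1 ∨ d1 < c1 ∨ c2 < d2 ∨ d2 < c2 := by
      by_contra hcon
      push Not at hcon
      apply h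
      rw [Prod.mk.injEq]
      omega
    rcases h' with h | h | h | h
    · refine ⟨0, d1, ?_⟩
      rintro q ⟨⟨⟨e1, e2⟩, e3, e4⟩, ⟨f1, f2⟩, f3, f4⟩
      have : (c1 : ℝ) + 1 ≤ d1 := by exact_mod_cast h
      simp only [mem_ofPred_eq] at *
      linarith
    · refine ⟨0, c1, ?_⟩
      rintro q ⟨⟨⟨e1, e2⟩, e3, e4⟩, ⟨f1, f2⟩, f3, f4⟩
      have : (d1 : ℝ) + 1 ≤ c1 := by exact_mod_cast h
      simp only [mem_ofPred_eq] at *
      linarith
    · refine ⟨1, d2, ?_⟩
      rintro q ⟨⟨⟨e1, e2⟩, e3, e4⟩, ⟨f1, f2⟩, f3, f4⟩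
      have : (c2 : ℝ) + 1 ≤ d2 := by exact_mod_cast h
      simp only [mem_ofPred_eq] at *
      linarith
    · refine ⟨1, c2, ?_⟩
      rintro q ⟨⟨⟨e1, e2⟩, e3, e4⟩, ⟨f1, f2⟩, f3, f4⟩
      have : (d2 : ℝ) + 1 ≤ c2 := by exact_mod_cast h
      simp only [mem_ofPred_eq] at *
      linarith
  obtain ⟨i, a, hsub⟩ := key
  exact subset_empty_iff.mp ((interior_mono hsub).trans (interior_hyperplane i a).subset)

theorem isTiling : IsMonohedralTiling sq phi := by
  refine ⟨inferInstance, isometry_phi, ?_, ?_, ?_⟩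
  · rw [eq_univ_iff_forall]
    intro q
    rw [mem_iUnion]
    refine ⟨(⌊q 0⌋, ⌊q 1⌋), ?_⟩
    rw [phi_sq]
    exact ⟨⟨Int.floor_le _, (Int.lt_floor_add_one _).le⟩, Int.floor_le _,
      (Int.lt_floor_add_one _).le⟩
  · intro c d h
    rw [phi_sq, phi_sq]
    exact disjoint_cells h
  · intro K hK
    rw [isBounded_iff_forall_norm_le] at hK
    obtain ⟨R, hR⟩ := hK
    refine ((finite_Icc (-⌈R⌉ - 1) ⌈R⌉).prod (finite_Icc (-⌈R⌉ - 1) ⌈R⌉)).subset ?_
    rintro c ⟨q, hq, hqK⟩
    rw [phi_sq] at hq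
    obtain ⟨⟨e1, e2⟩, e3, e4⟩ := hq
    have h0 := (PiLp.norm_apply_le q 0).trans (hR q hqK)
    have h1 := (PiLp.norm_apply_le q 1).trans (hR q hqK)
    rw [Real.norm_eq_abs, abs_le] at h0 h1
    have hc := Int.le_ceil R
    refine ⟨⟨?_, ?_⟩, ?_, ?_⟩
    · have : (-⌈R⌉ - 1 : ℝ) ≤ c.1 := by linarith [h0.1]
      exact_mod_cast this
    · have : (c.1 : ℝ) ≤ ⌈R⌉ := by linarith [h0.2]
      exact_mod_cast this
    · have : (-⌈R⌉ - 1 : ℝ) ≤ c.2 := by linarith [h1.1]
      exact_mod_cast this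
    · have : (c.2 : ℝ) ≤ ⌈R⌉ := by linarith [h1.2]
      exact_mod_cast this

theorem isMarking : IsMarking sq {bot} := by
  refine ⟨finite_singleton _, singleton_nonempty _, ?_⟩
  intro A hA
  rw [mem_singleton_iff.mp hA]
  refine ⟨isArc_bot, fun p hp => ?_⟩
  obtain ⟨⟨h1, h2⟩, h3⟩ := hp
  refine ⟨⟨h1, h2⟩, ?_, ?_⟩ <;> rw [h3] <;> norm_num

theorem isSpiral : IsSpiral {bot} phi := by
  refine ⟨1, fun _ => Set.range (curveIci V), fun _ => ⟨⟨Ici 0, ordConnected_Ici, ?_⟩,
    not_bounded_range⟩, ?_⟩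
  · exact ⟨(isClosedEmbedding_curveIci V_injective V_adj).isEmbedding.toHomeomorph⟩
  · rw [← union_eq]
    ext q
    simp only [mem_iUnion, mem_singleton_iff, exists_prop, exists_eq_left, phi_bot,
      exists_const]

/-! ### The aspects -/

theorem sameAspect_of_side {c d : ℤ × ℤ} (h : side c = side d) :
    SameAspect sq {bot} phi c d := by
  refine ⟨!₂[(d.1 : ℝ) - c.1, (d.2 : ℝ) - c.2], ?_, ?_⟩
  · rw [phi_sq, phi_sq]
    ext q
    rw [mem_image]
    constructor
    · rintro ⟨p, ⟨⟨h1, h2⟩, h3, h4⟩, rfl⟩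
      refine ⟨⟨?_, ?_⟩, ?_, ?_⟩ <;> simp only [PiLp.add_apply, Matrix.cons_val_zero,
        Matrix.cons_val_one, Matrix.cons_val_fin_one] <;> linarith
    · rintro ⟨⟨h1, h2⟩, h3, h4⟩
      refine ⟨!₂[q 0 - (d.1 - c.1), q 1 - (d.2 - c.2)], ⟨⟨?_, ?_⟩, ?_, ?_⟩, ?_⟩
      · simp only [Matrix.cons_val_zero]; linarith
      · simp only [Matrix.cons_val_zero]; linarith
      · simp only [Matrix.cons_val_one, Matrix.cons_val_fin_one]; linarith
      · simp only [Matrix.cons_val_one, Matrix.cons_val_fin_one]; linarith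
      · ext i
        fin_cases i <;> simp
  · rw [image_singleton, image_singleton, phi_bot, phi_bot]
    congr 1
    unfold mside
    rw [← h]
    split_ifs
    · ext q
      rw [mem_image]
      constructor
      · rintro ⟨p, ⟨⟨h1, h2⟩, h3⟩, rfl⟩
        refine ⟨⟨?_, ?_⟩, ?_⟩ <;> simp only [PiLp.add_apply, Matrix.cons_val_zero,
          Matrix.cons_val_one, Matrix.cons_val_fin_one] <;> linarith
      · rintro ⟨⟨h1, h2⟩, h3⟩
        refine ⟨!₂[q 0 - (d.1 - c.1), q 1 - (d.2 - c.2)], ⟨⟨?_, ?_⟩, ?_⟩, ?_⟩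
        · simp only [Matrix.cons_val_zero]; linarith
        · simp only [Matrix.cons_val_zero]; linarith
        · simp only [Matrix.cons_val_one, Matrix.cons_val_fin_one]; linarith
        · ext i
          fin_cases i <;> simp
    · ext q
      rw [mem_image]
      constructor
      · rintro ⟨p, ⟨⟨h1, h2⟩, h3⟩, rfl⟩
        refine ⟨⟨?_, ?_⟩, ?_⟩ <;> simp only [PiLp.add_apply, Matrix.cons_val_zero,
          Matrix.cons_val_one, Matrix.cons_val_fin_one] <;> linarith
      · rintro ⟨⟨h1, h2⟩, h3⟩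
        refine ⟨!₂[q 0 - (d.1 - c.1), q 1 - (d.2 - c.2)], ⟨⟨?_, ?_⟩, ?_⟩, ?_⟩
        · simp only [Matrix.cons_val_zero]; linarith
        · simp only [Matrix.cons_val_zero]; linarith
        · simp only [Matrix.cons_val_one, Matrix.cons_val_fin_one]; linarith
        · ext i
          fin_cases i <;> simp
    · ext q
      rw [mem_image]
      constructor
      · rintro ⟨p, ⟨⟨h1, h2⟩, h3⟩, rfl⟩
        refine ⟨⟨?_, ?_⟩, ?_⟩ <;> simp only [PiLp.add_apply, Matrix.cons_val_zero,
          Matrix.cons_val_one, Matrix.cons_val_fin_one] <;> linarith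
      · rintro ⟨⟨h1, h2⟩, h3⟩
        refine ⟨!₂[q 0 - (d.1 - c.1), q 1 - (d.2 - c.2)], ⟨⟨?_, ?_⟩, ?_⟩, ?_⟩
        · simp only [Matrix.cons_val_one, Matrix.cons_val_fin_one]; linarith
        · simp only [Matrix.cons_val_one, Matrix.cons_val_fin_one]; linarith
        · simp only [Matrix.cons_val_zero]; linarith
        · ext i
          fin_cases i <;> simp

theorem side_of_sameAspect {c d : ℤ × ℤ} (h : SameAspect sq {bot} phi c d) :
    side c = side d := by
  obtain ⟨v, h1, h2⟩ := h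
  rw [phi_sq, phi_sq] at h1
  rw [image_singleton, image_singleton, phi_bot, phi_bot, singleton_eq_singleton_iff] at h2
  -- the translation vector
  have hc : (!₂[(c.1 : ℝ), (c.2 : ℝ)] : Plane) ∈ cell c := by
    refine ⟨⟨?_, ?_⟩, ?_, ?_⟩ <;> simp
  have hd : (!₂[(d.1 : ℝ), (d.2 : ℝ)] : Plane) ∈ cell d := by
    refine ⟨⟨?_, ?_⟩, ?_, ?_⟩ <;> simp
  have e1 : (!₂[(c.1 : ℝ), (c.2 : ℝ)] : Plane) + v ∈ cell d := h1 ▸ ⟨_, hc, rfl⟩
  rw [← h1] at hd
  obtain ⟨w, hw, hwv⟩ := hd
  have hw0 := congrArg (fun p : Plane => p 0) hwv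
  have hw1 := congrArg (fun p : Plane => p 1) hwv
  simp only [PiLp.add_apply, Matrix.cons_val_zero, Matrix.cons_val_one,
    Matrix.cons_val_fin_one] at hw0 hw1
  obtain ⟨⟨g1, g2⟩, g3, g4⟩ := e1
  obtain ⟨⟨k1, k2⟩, k3, k4⟩ := hw
  simp only [PiLp.add_apply, Matrix.cons_val_zero, Matrix.cons_val_one,
    Matrix.cons_val_fin_one] at g1 g2 g3 g4
  have hv0 : v 0 = d.1 - c.1 := by linarith
  have hv1 : v 1 = d.2 - c.2 := by linarith
  -- membership transfer
  have tr : ∀ x y : ℝ, (!₂[(c.1 : ℝ) + x, (c.2 : ℝ) + y] : Plane) ∈ mside c →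
      (!₂[(d.1 : ℝ) + x, (d.2 : ℝ) + y] : Plane) ∈ mside d := by
    intro x y hxy
    rw [← h2]
    refine ⟨_, hxy, ?_⟩
    rw [eq_comm, vec_eq]
    simp only [PiLp.add_apply, Matrix.cons_val_zero, Matrix.cons_val_one,
      Matrix.cons_val_fin_one, hv0, hv1]
    constructor <;> ring
  have t00 := tr 0 0
  have t10 := tr 1 0
  have t01 := tr 0 1
  have t11 := tr 1 1
  have hc3 : side c = 0 ∨ side c = 1 ∨ side c = 2 := by
    generalize side c = s
    fin_cases s <;> simp
  have hd3 : side d = 0 ∨ side d = 1 ∨ side d = 2 := by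
    generalize side d = s
    fin_cases s <;> simp
  rcases hc3 with a | a | a <;> rcases hd3 with b | b | b <;> rw [a, b] <;> exfalso <;>
    simp [mside, a, b] at t00 t10 t01 t11

theorem sameAspect_iff {c d : ℤ × ℤ} : SameAspect sq {bot} phi c d ↔ side c = side d :=
  ⟨side_of_sameAspect, sameAspect_of_side⟩

theorem side_surjective : Function.Surjective side := by
  intro s
  fin_cases s
  · exact ⟨(0, 0), by decide⟩
  · exact ⟨(0, -1), by decide⟩
  · exact ⟨(1, 0), by decide⟩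

theorem numAspects_eq : numAspects sq {bot} phi = 3 := by
  have h1 : {S : Set (ℤ × ℤ) | ∃ i, S = {j | SameAspect sq {bot} phi i j}} =
      Set.range fun s : Fin 3 => {j | s = side j} := by
    ext S
    rw [mem_ofPred_eq, mem_range]
    constructor
    · rintro ⟨i, rfl⟩
      refine ⟨side i, ?_⟩
      ext j
      exact sameAspect_iff.symm
    · rintro ⟨s, rfl⟩
      obtain ⟨i, rfl⟩ := side_surjective s
      refine ⟨i, ?_⟩
      ext j
      exact sameAspect_iff.symm
  have hinj : Function.Injective fun s : Fin 3 => {j : ℤ × ℤ | s = side j} := by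
    intro s t hst
    obtain ⟨i, rfl⟩ := side_surjective s
    have : i ∈ {j : ℤ × ℤ | side i = side j} := rfl
    have h2 : i ∈ {j : ℤ × ℤ | t = side j} := by
      have h3 : {j : ℤ × ℤ | side i = side j} = {j : ℤ × ℤ | t = side j} := hst
      rw [← h3]
      exact this
    exact h2.symm
  rw [numAspects, h1, ← image_univ, hinj.encard_image, encard_univ,
    ENat.card_eq_coe_fintype_card, Fintype.card_fin]
  rfl

/-- **Negative answer to Q1**: there is a spiral tiling in which the marked prototile occurs in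
exactly three aspects. -/
theorem result : ∃ (T : Set Plane) (M : Set (Set Plane)) (ι : Type) (φ : ι → Plane → Plane),
    IsClosedDisk T ∧ IsMarking T M ∧ IsMonohedralTiling T φ ∧ IsSpiral M φ ∧
      numAspects T M φ = 3 :=
  ⟨sq, {bot}, ℤ × ℤ, phi, isClosedDisk_sq, isMarking, isTiling, isSpiral, numAspects_eq⟩

end Pool.Agent.Results.MP_361b6b_co.ThreeAspects
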